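import Mathlib

open Complex Filter Topology Set Metric

namespace Pool.Agent.H296R2.LE

/-- growth along a segment from a bound for the logarithmic derivative -/
theorem ratio_upper {f f' : ℝ → ℂ} {a b K l : ℝ} (hab : a ≤ b)
    (hd : ∀ x ∈ Icc a b, HasDerivAt f (f' x) x)
    (hK : ∀ x ∈ Icc a b, ‖f' x + l * f x‖ ≤ K * ‖f x‖) :
    ‖f b‖ ≤ ‖f a‖ * Real.exp ((K - l) * (b - a)) := by
  let g : ℝ → ℂ := fun x => f x * cexp (((l * (x - a) : ℝ) : ℂ))
  have hg : ∀ x ∈ Icc a b, HasDerivAt g ((f' x + l * f x) * cexp (((l * (x - a) : ℝ) : ℂ))) x := by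
    intro x hx
    have h1 : HasDerivAt (fun x : ℝ => ((l * (x - a) : ℝ) : ℂ)) (l : ℂ) x := by
      have := (((hasDerivAt_id x).sub_const a).const_mul l).ofReal_comp
      simpa using this
    have h2 := (hd x hx).mul h1.cexp
    refine h2.congr_deriv ?_
    ring
  have hn : ∀ x, ‖cexp (((l * (x - a) : ℝ) : ℂ))‖ = Real.exp (l * (x - a)) := by
    intro x
    rw [Complex.norm_exp, Complex.ofReal_re]
  have hgr := norm_le_gronwallBound_of_norm_deriv_right_le (f := g)
    (f' := fun x => (f' x + l * f x) * cexp (((l * (x - a) : ℝ) : ℂ))) (δ := ‖f a‖) (K := K) (ε := 0)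
    (a := a) (b := b)
    (fun x hx => (hg x hx).continuousAt.continuousWithinAt)
    (fun x hx => (hg x ⟨hx.1, hx.2.le⟩).hasDerivWithinAt)
    (by simp [g])
    (fun x hx => by
      simp only [g]
      rw [norm_mul, norm_mul, add_zero, ← mul_assoc]
      exact mul_le_mul_of_nonneg_right (hK x ⟨hx.1, hx.2.le⟩) (norm_nonneg _)) b ⟨hab, le_rfl⟩
  rw [gronwallBound_ε0] at hgr
  simp only [g] at hgr
  rw [norm_mul, hn] at hgr
  have e : Real.exp ((K - l) * (b - a)) = Real.exp (K * (b - a)) * Real.exp (-(l * (b - a))) := by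
    rw [← Real.exp_add]
    congr 1
    ring
  rw [e, ← mul_assoc]
  calc ‖f b‖ = ‖f b‖ * Real.exp (l * (b - a)) * Real.exp (-(l * (b - a))) := by
        rw [mul_assoc, ← Real.exp_add]
        simp
    _ ≤ ‖f a‖ * Real.exp (K * (b - a)) * Real.exp (-(l * (b - a))) := by
        gcongr

theorem ratio_lower {f f' : ℝ → ℂ} {a b K l : ℝ} (hab : a ≤ b)
    (hd : ∀ x ∈ Icc a b, HasDerivAt f (f' x) x)
    (hK : ∀ x ∈ Icc a b, ‖f' x + l * f x‖ ≤ K * ‖f x‖) :
    ‖f a‖ ≤ ‖f b‖ * Real.exp ((K + l) * (b - a)) := by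
  have h := ratio_upper (f := fun x => f (-x)) (f' := fun x => -f' (-x)) (a := -b) (b := -a) (K := K)
    (l := -l) (by linarith) (fun x hx => by
      have hx' : -x ∈ Icc a b := ⟨by linarith [hx.2], by linarith [hx.1]⟩
      have := (hd (-x) hx').scomp x (hasDerivAt_neg x)
      rw [Function.comp_def] at this
      refine this.congr_deriv ?_
      simp) (fun x hx => by
      have hx' : -x ∈ Icc a b := ⟨by linarith [hx.2], by linarith [hx.1]⟩
      have := hK (-x) hx'
      have e : -f' (-x) + ((-l : ℝ) : ℂ) * f (-x) = -(f' (-x) + l * f (-x)) := by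
        push_cast; ring
      rw [e, norm_neg]
      exact this)
  simp only [neg_neg] at h
  have e : (K - -l) * (-a - -b) = (K + l) * (b - a) := by ring
  rw [e] at h
  exact h

/-- Hadamard's three circles theorem in the form of a two constants theorem -/
theorem three_circles {r ρ R : ℝ} (hr : 0 < r) (hrρ : r < ρ) (hρR : ρ < R) :
    ∃ θ : ℝ, 0 < θ ∧ θ < 1 ∧ ∀ (h : ℂ → ℂ) (c : ℂ) (m M : ℝ), 0 < m → m ≤ M →
      DifferentiableOn ℂ h (ball c R) → (∀ z ∈ closedBall c r, ‖h z‖ ≤ m) →
      (∀ z ∈ ball c R, ‖h z‖ ≤ M) → ∀ z ∈ closedBall c ρ, ‖h z‖ ≤ m ^ (1 - θ) * M ^ θ := by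
  set R' := (ρ + R) / 2 with hR'
  have hR1 : ρ < R' := by rw [hR']; linarith
  have hR2 : R' < R := by rw [hR']; linarith
  have hρ0 : 0 < ρ := hr.trans hrρ
  have hR'0 : 0 < R' := hρ0.trans hR1
  have hl : Real.log r < Real.log R' := Real.log_lt_log hr (hrρ.trans hR1)
  have hl1 : Real.log r < Real.log ρ := Real.log_lt_log hr hrρ
  have hl2 : Real.log ρ < Real.log R' := Real.log_lt_log hρ0 hR1
  set D := Real.log R' - Real.log r with hD
  have hD0 : 0 < D := by rw [hD]; linarith
  refine ⟨(Real.log ρ - Real.log r) / D, div_pos (by linarith) hD0, ?_, ?_⟩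
  · rw [div_lt_one hD0, hD]; linarith
  intro h c m M hm hmM hd h1 h2 z hz
  set θ := (Real.log ρ - Real.log r) / D with hθ
  have hθ0 : 0 < θ := div_pos (by linarith) hD0
  have hθ1 : θ < 1 := by rw [hθ, div_lt_one hD0, hD]; linarith
  have hM0 : 0 < M := hm.trans_le hmM
  have hmono : ∀ u : ℝ, u ≤ θ → m ^ (1 - u) * M ^ u ≤ m ^ (1 - θ) * M ^ θ := by
    intro u hu
    have e1 : ∀ v : ℝ, m ^ (1 - v) * M ^ v = m * (M / m) ^ v := by
      intro v
      rw [Real.rpow_sub hm, Real.rpow_one, Real.div_rpow hM0.le hm.le]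
      field_simp
    rw [e1, e1]
    apply mul_le_mul_of_nonneg_left _ hm.le
    apply Real.rpow_le_rpow_of_exponent_le _ hu
    rwa [one_le_div hm]
  by_cases hzr : z ∈ closedBall c r
  · have := hmono 0 hθ0.le
    simp only [sub_zero, Real.rpow_one, Real.rpow_zero, mul_one] at this
    exact (h1 z hzr).trans this
  · rw [mem_closedBall, not_le] at hzr
    rw [mem_closedBall] at hz
    set d := dist z c with hd'
    have hd0 : 0 < d := hr.trans hzr
    have hne : z - c ≠ 0 := by
      rw [← norm_pos_iff, ← dist_eq_norm]; exact hd0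
    let f : ℂ → ℂ := fun w => h (c + cexp w)
    have hmaps : ∀ w : ℂ, w.re < Real.log R → c + cexp w ∈ ball c R := by
      intro w hw
      rw [mem_ball, dist_eq_norm, add_sub_cancel_left, Complex.norm_exp]
      have hR0 : 0 < R := hρ0.trans hρR
      rw [← Real.exp_log hR0]
      exact Real.exp_lt_exp.2 hw
    have hfd : ∀ w : ℂ, w.re < Real.log R → DifferentiableAt ℂ f w := by
      intro w hw
      have h3 : DifferentiableAt ℂ h (c + cexp w) :=
        (hd _ (hmaps w hw)).differentiableAt (isOpen_ball.mem_nhds (hmaps w hw))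
      exact h3.comp w ((differentiableAt_const c).add Complex.differentiableAt_exp)
    have hlR : Real.log R' < Real.log R := Real.log_lt_log hR'0 hR2
    have hcl : closure (Complex.HadamardThreeLines.verticalStrip (Real.log r) (Real.log R')) ⊆
        {w : ℂ | w.re < Real.log R} := by
      have hsub : Complex.HadamardThreeLines.verticalStrip (Real.log r) (Real.log R') ⊆
          {w : ℂ | w.re ≤ Real.log R'} := by
        intro w hw
        exact hw.2.le
      refine (closure_minimal hsub (isClosed_le Complex.continuous_re continuous_const)).trans ?_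
      intro w hw
      exact lt_of_le_of_lt hw hlR
    have hdc : DiffContOnCl ℂ f (Complex.HadamardThreeLines.verticalStrip (Real.log r) (Real.log R')) := by
      apply DifferentiableOn.diffContOnCl
      intro w hw
      exact (hfd w (hcl hw)).differentiableWithinAt
    have hexp : cexp (Complex.log (z - c)) = z - c := Complex.exp_log hne
    have hre : (Complex.log (z - c)).re = Real.log d := by
      rw [Complex.log_re, hd', dist_eq_norm]
    have hlog1 : Real.log r ≤ Real.log d := (Real.log_lt_log hr hzr).le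
    have hlog2 : Real.log d ≤ Real.log ρ := Real.log_le_log hd0 hz
    have key := Complex.HadamardThreeLines.norm_le_interp_of_mem_verticalClosedStrip' (f := f)
      (z := Complex.log (z - c)) (a := m) (b := M) (l := Real.log r) (u := Real.log R') hl
      (by
        constructor
        · rw [hre]; exact hlog1
        · rw [hre]; linarith) hdc
      (by
        refine ⟨M, ?_⟩
        rintro _ ⟨w, hw, rfl⟩
        exact h2 _ (hmaps w (lt_of_le_of_lt hw.2 hlR)))
      (by
        intro w hw
        apply h1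
        rw [mem_preimage, mem_singleton_iff] at hw
        rw [mem_closedBall, dist_eq_norm, add_sub_cancel_left, Complex.norm_exp, hw, Real.exp_log hr])
      (by
        intro w hw
        rw [mem_preimage, mem_singleton_iff] at hw
        exact h2 _ (hmaps w (by rw [hw]; exact hlR)))
    have hfz : f (Complex.log (z - c)) = h z := by
      simp only [f]
      rw [hexp]
      congr 1
      ring
    rw [hfz, hre, ← hD] at key
    refine key.trans (hmono _ ?_)
    rw [hθ]
    gcongr

/-- primitive of the logarithmic derivative on a ball -/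
theorem exists_log {F : ℂ → ℂ} {c : ℂ} {R : ℝ} (hR : 0 < R) (hd : DifferentiableOn ℂ F (ball c R))
    (hne : ∀ z ∈ ball c R, F z ≠ 0) :
    ∃ h : ℂ → ℂ, h c = 0 ∧ (∀ z ∈ ball c R, HasDerivAt h (deriv F z / F z) z) ∧
      ∀ z ∈ ball c R, F z = F c * cexp (h z) := by
  have hdF : DifferentiableOn ℂ (deriv F) (ball c R) := hd.deriv isOpen_ball
  have hq : DifferentiableOn ℂ (fun z => deriv F z / F z) (ball c R) := hdF.div hd hne
  obtain ⟨h0, hh0⟩ := hq.isExactOn_ball
  have hc : c ∈ ball c R := mem_ball_self hR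
  refine ⟨fun z => h0 z - h0 c, by simp, fun z hz => (hh0 z hz).sub_const _, ?_⟩
  intro z hz
  have hconst : ∀ z ∈ ball c R, F z * cexp (-(h0 z - h0 c)) = F c := by
    intro z hz
    have hder : ∀ w ∈ ball c R, HasDerivWithinAt (fun w => F w * cexp (-(h0 w - h0 c))) 0 (ball c R) w := by
      intro w hw
      have h1 : HasDerivAt F (deriv F w) w :=
        ((hd w hw).differentiableAt (isOpen_ball.mem_nhds hw)).hasDerivAt
      have h2 := ((hh0 w hw).sub_const (h0 c)).neg.cexp
      have h3 := h1.mul h2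
      have h4 : HasDerivAt (fun w => F w * cexp (-(h0 w - h0 c))) 0 w := by
        refine h3.congr_deriv ?_
        have := hne w hw
        field_simp
        ring
      exact h4.hasDerivWithinAt
    have := (convex_ball c R).norm_image_sub_le_of_norm_hasDerivWithin_le (𝕜 := ℂ)
      (f := fun w => F w * cexp (-(h0 w - h0 c))) (f' := fun _ => 0) (C := 0)
      hder (fun w _ => by simp) hc hz
    rw [zero_mul, norm_le_zero_iff, sub_eq_zero] at this
    simpa using this
  have := hconst z hz
  rw [← this, mul_assoc, ← Complex.exp_add]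
  simp

/-- extension of the asymptotic for the logarithmic derivative over a zero-free ball -/
theorem ext_ball {r ρ R : ℝ} (hr : 0 < r) (hrρ : r < ρ) (hρR : ρ < R) {A ε : ℝ} (hA : 0 < A)
    (hε : 0 < ε) : ∃ ε' : ℝ, 0 < ε' ∧ ∀ (F : ℂ → ℂ) (c : ℂ) (L : ℝ), 0 < L →
      DifferentiableOn ℂ F (ball c R) → (∀ z ∈ ball c R, F z ≠ 0) →
      (∀ z ∈ ball c R, ‖F z‖ ≤ Real.exp (A * L)) → 1 ≤ ‖F c‖ →
      (∀ z ∈ closedBall c r, ‖deriv F z / F z + L‖ ≤ ε' * L) →
      ∀ z ∈ closedBall c ρ, ‖deriv F z / F z + L‖ ≤ ε * L := by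
  set Ra := (ρ + 2 * R) / 3 with hRa
  set Rb := (2 * ρ + R) / 3 with hRb
  have h1 : ρ < Rb := by rw [hRb]; linarith
  have h2 : Rb < Ra := by rw [hRb, hRa]; linarith
  have h3 : Ra < R := by rw [hRa]; linarith
  have hρ0 : 0 < ρ := hr.trans hrρ
  have hRb0 : 0 < Rb := hρ0.trans h1
  have hRa0 : 0 < Ra := hRb0.trans h2
  have hR0 : 0 < R := hRa0.trans h3
  obtain ⟨θ, hθ0, hθ1, hθ⟩ := three_circles hr hrρ h1
  set B := 2 * A * Ra / (R - Ra) / (Ra - Rb) + 1 with hB
  have hB0 : 0 < B := by
    rw [hB]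
    have : 0 < R - Ra := by linarith
    have : 0 < Ra - Rb := by linarith
    positivity
  have hB1 : 1 ≤ B := by
    rw [hB]
    have : 0 < R - Ra := by linarith
    have : 0 < Ra - Rb := by linarith
    have : 0 ≤ 2 * A * Ra / (R - Ra) / (Ra - Rb) := by positivity
    linarith
  -- choose ε'
  obtain ⟨ε', hε'0, hε'1, hε'2⟩ : ∃ ε' : ℝ, 0 < ε' ∧ ε' ≤ B ∧ ε' ^ (1 - θ) * B ^ θ ≤ ε := by
    set q := (ε / B ^ θ) ^ (1 / (1 - θ)) with hq
    have hq0 : 0 < q := by rw [hq]; positivity
    refine ⟨min q B, lt_min hq0 hB0, min_le_right _ _, ?_⟩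
    have h4 : (min q B) ^ (1 - θ) ≤ q ^ (1 - θ) :=
      Real.rpow_le_rpow (lt_min hq0 hB0).le (min_le_left _ _) (by linarith)
    have h5 : q ^ (1 - θ) = ε / B ^ θ := by
      rw [hq, ← Real.rpow_mul (by positivity), one_div, inv_mul_cancel₀ (by linarith), Real.rpow_one]
    calc (min q B) ^ (1 - θ) * B ^ θ ≤ q ^ (1 - θ) * B ^ θ := by gcongr
      _ = ε := by rw [h5]; field_simp
  refine ⟨ε', hε'0, ?_⟩
  intro F c L hL hd hne hup hc hin
  obtain ⟨h, hh0, hh1, hh2⟩ := exists_log hR0 hd hne
  have hhd : ∀ z ∈ ball c R, DifferentiableAt ℂ h z := fun z hz => (hh1 z hz).differentiableAt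
  have hre : ∀ z ∈ ball c R, (h z).re ≤ A * L := by
    intro z hz
    have h4 := hup z hz
    rw [hh2 z hz, norm_mul, Complex.norm_exp] at h4
    have h5 : Real.exp (h z).re ≤ Real.exp (A * L) := by
      calc Real.exp (h z).re = 1 * Real.exp (h z).re := (one_mul _).symm
        _ ≤ ‖F c‖ * Real.exp (h z).re := by gcongr
        _ ≤ _ := h4
    exact Real.exp_le_exp.1 h5
  -- Borel-Caratheodory
  have hbc : ∀ z ∈ closedBall c Ra, ‖h z‖ ≤ 2 * (A * L) * Ra / (R - Ra) := by
    intro z hz
    rw [mem_closedBall, dist_eq_norm] at hz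
    have hz' : z - c ∈ ball (0 : ℂ) R := by
      rw [mem_ball_zero_iff]; linarith
    have hb := Complex.borelCaratheodory_zero (f := fun w => h (c + w)) (M := A * L) (R := R)
      (z := z - c) (by positivity)
      (by
        intro w hw
        have hw' : c + w ∈ ball c R := by
          rw [mem_ball, dist_eq_norm, add_sub_cancel_left]
          rwa [mem_ball_zero_iff] at hw
        exact ((hhd _ hw').comp w ((differentiableAt_const c).add differentiableAt_id)).differentiableWithinAt)
      (by
        intro w hw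
        have hw' : c + w ∈ ball c R := by
          rw [mem_ball, dist_eq_norm, add_sub_cancel_left]
          rwa [mem_ball_zero_iff] at hw
        exact hre _ hw') hR0 hz' (by simp [hh0])
    have e : c + (z - c) = z := by ring
    simp only [e] at hb
    refine hb.trans ?_
    apply div_le_div₀
    · positivity
    · gcongr
    · linarith
    · linarith
  have hder : ∀ z ∈ ball c Rb, ‖deriv F z / F z‖ ≤ (B - 1) * L := by
    intro z hz
    have hzb : z ∈ ball c R := ball_subset_ball (by linarith) hz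
    rw [← (hh1 z hzb).deriv]
    have hRab : 0 < Ra - Rb := by linarith
    have hsub : closedBall z (Ra - Rb) ⊆ closedBall c Ra := by
      apply closedBall_subset_closedBall'
      rw [mem_ball] at hz
      linarith
    have hsub2 : closedBall z (Ra - Rb) ⊆ ball c R :=
      hsub.trans (closedBall_subset_ball h3)
    have := Complex.norm_deriv_le_of_forall_mem_sphere_norm_le (f := h) (c := z) (R := Ra - Rb)
      (C := 2 * (A * L) * Ra / (R - Ra)) hRab
      (by
        apply DifferentiableOn.diffContOnCl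
        rw [closure_ball z hRab.ne']
        intro w hw
        exact (hhd w (hsub2 hw)).differentiableWithinAt)
      (fun w hw => hbc w (hsub (sphere_subset_closedBall hw)))
    refine this.trans (le_of_eq ?_)
    rw [hB]
    have : R - Ra ≠ 0 := by linarith
    field_simp
    ring
  have hH : ∀ z ∈ ball c Rb, ‖deriv F z / F z + L‖ ≤ B * L := by
    intro z hz
    refine (norm_add_le _ _).trans ?_
    rw [Complex.norm_real, Real.norm_of_nonneg hL.le]
    have := hder z hz
    linarith
  intro z hz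
  have hdH : DifferentiableOn ℂ (fun z => deriv F z / F z + (L : ℂ)) (ball c Rb) := by
    have hsub : ball c Rb ⊆ ball c R := ball_subset_ball (by linarith)
    have h4 : DifferentiableOn ℂ (deriv F) (ball c R) := hd.deriv isOpen_ball
    exact (((h4.div hd hne).mono hsub).add_const _)
  have key := hθ (fun z => deriv F z / F z + (L : ℂ)) c (ε' * L) (B * L) (by positivity)
    (by gcongr) hdH hin hH z hz
  refine key.trans ?_
  rw [Real.mul_rpow hε'0.le hL.le, Real.mul_rpow hB0.le hL.le]
  have e : ε' ^ (1 - θ) * L ^ (1 - θ) * (B ^ θ * L ^ θ) = (ε' ^ (1 - θ) * B ^ θ) * L := by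
    have : L ^ (1 - θ) * L ^ θ = L := by
      rw [← Real.rpow_add hL]; simp
    calc _ = (ε' ^ (1 - θ) * B ^ θ) * (L ^ (1 - θ) * L ^ θ) := by ring
      _ = _ := by rw [this]
  rw [e]
  gcongr

end Pool.Agent.H296R2.LE
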